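import Mathlib
import Pool.Agent.H758R2.Groth

/-!
# The space `𝓛` is a Banach algebra under pointwise multiplication

The proof: the matrices in the injective tensor product `ℓ¹ ⊗ ℓ¹` are closed under convolution, by
Grothendieck's inequality in its two forms (inequality for vectors, and factorization), and `𝓛` is a
quotient of this convolution algebra.
-/

set_option autoImplicit false

open Finset

namespace Pool.Agent.Results.MP_20ef18_an.LBanachAlgebra

/-! ## Definitions -/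

/-- The injective norm of the matrix `γ` is at most `B`: every finite section of the form
`(x, y) ↦ ∑ γ m k * x m * y k` is bounded by `B` when `|x m| ≤ 1` and `|y k| ≤ 1`. -/
def InjBound (γ : ℕ → ℕ → ℂ) (B : ℝ) : Prop :=
  ∀ (x y : ℕ → ℂ), (∀ m, ‖x m‖ ≤ 1) → (∀ k, ‖y k‖ ≤ 1) → ∀ M : ℕ,
    ‖∑ m ∈ range M, ∑ k ∈ range M, γ m k * x m * y k‖ ≤ B

/-- `γ` belongs to the injective tensor product `ℓ¹ ⊗ ℓ¹`: it is a limit, in the injective norm, of
matrices with finitely many nonzero entries. -/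
def InInjective (γ : ℕ → ℕ → ℂ) : Prop :=
  ∀ ε > 0, ∃ δ : ℕ → ℕ → ℂ, (∃ M, ∀ m k, M ≤ m ∨ M ≤ k → δ m k = 0) ∧
    InjBound (fun m k => γ m k - δ m k) ε

/-- `φ` has Taylor coefficients given by the antidiagonal sums of the matrix `γ`. -/
def Represents (γ : ℕ → ℕ → ℂ) (φ : PowerSeries ℂ) : Prop :=
  ∀ n, ∑ p ∈ antidiagonal n, γ p.1 p.2 = PowerSeries.coeff n φ

/-- The space `𝓛`: power series whose Taylor coefficients are the antidiagonal sums of a matrix in
the injective tensor product of `ℓ¹` with itself. -/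
def spaceL : Set (PowerSeries ℂ) := {φ | ∃ γ B, InInjective γ ∧ InjBound γ B ∧ Represents γ φ}

/-- The norm of `𝓛`: the infimum of the injective norms of such matrices. -/
noncomputable def normL (φ : PowerSeries ℂ) : ℝ :=
  sInf {B : ℝ | ∃ γ, InInjective γ ∧ InjBound γ B ∧ Represents γ φ}

/-- The convolution of two matrices. -/
def conv (γ δ : ℕ → ℕ → ℂ) (u v : ℕ) : ℂ :=
  ∑ p ∈ antidiagonal u, ∑ q ∈ antidiagonal v, γ p.1 q.1 * δ p.2 q.2

/-! ## Elementary facts on the injective norm -/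

lemma InjBound.nonneg {γ : ℕ → ℕ → ℂ} {B : ℝ} (h : InjBound γ B) : 0 ≤ B := by
  simpa using h (fun _ => 0) (fun _ => 0) (by simp) (by simp) 0

lemma InjBound.mono {γ : ℕ → ℕ → ℂ} {B B' : ℝ} (h : InjBound γ B) (hB : B ≤ B') :
    InjBound γ B' := fun x y hx hy M => (h x y hx hy M).trans hB

lemma InjBound.congr {γ γ' : ℕ → ℕ → ℂ} {B : ℝ} (h : InjBound γ B) (hg : ∀ m k, γ m k = γ' m k) :
    InjBound γ' B := by
  have : γ = γ' := by ext m k; exact hg m k
  rwa [← this]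

lemma InjBound.add {γ γ' : ℕ → ℕ → ℂ} {B B' : ℝ} (h : InjBound γ B) (h' : InjBound γ' B') :
    InjBound (fun m k => γ m k + γ' m k) (B + B') := by
  intro x y hx hy M
  have e1 : ∑ m ∈ range M, ∑ k ∈ range M, (γ m k + γ' m k) * x m * y k
      = (∑ m ∈ range M, ∑ k ∈ range M, γ m k * x m * y k)
        + ∑ m ∈ range M, ∑ k ∈ range M, γ' m k * x m * y k := by
    rw [← sum_add_distrib]
    refine sum_congr rfl (fun m _ => ?_)
    rw [← sum_add_distrib]
    exact sum_congr rfl (fun k _ => by ring)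
  rw [e1]
  exact (norm_add_le _ _).trans (add_le_add (h x y hx hy M) (h' x y hx hy M))

lemma InjBound.smul {γ : ℕ → ℕ → ℂ} {B : ℝ} (c : ℂ) (h : InjBound γ B) :
    InjBound (fun m k => c * γ m k) (‖c‖ * B) := by
  intro x y hx hy M
  have e1 : ∑ m ∈ range M, ∑ k ∈ range M, c * γ m k * x m * y k
      = c * (∑ m ∈ range M, ∑ k ∈ range M, γ m k * x m * y k) := by
    rw [mul_sum]
    refine sum_congr rfl (fun m _ => ?_)
    rw [mul_sum]
    exact sum_congr rfl (fun k _ => by ring)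
  rw [e1, norm_mul]
  exact mul_le_mul_of_nonneg_left (h x y hx hy M) (norm_nonneg _)

lemma InjBound.neg {γ : ℕ → ℕ → ℂ} {B : ℝ} (h : InjBound γ B) :
    InjBound (fun m k => - γ m k) B := by
  have := (h.smul (-1))
  rw [norm_neg, norm_one, one_mul] at this
  exact this.congr (fun m k => by ring)

lemma InjBound.entry {γ : ℕ → ℕ → ℂ} {B : ℝ} (h : InjBound γ B) (m k : ℕ) : ‖γ m k‖ ≤ B := by
  have h1 := h (fun i => if i = m then 1 else 0) (fun j => if j = k then 1 else 0)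
    (fun i => by split_ifs <;> simp) (fun j => by split_ifs <;> simp) (max m k + 1)
  have e1 : ∑ i ∈ range (max m k + 1), ∑ j ∈ range (max m k + 1),
      γ i j * (if i = m then (1:ℂ) else 0) * (if j = k then 1 else 0) = γ m k := by
    rw [sum_eq_single m, sum_eq_single k]
    · simp
    · intro j _ hj; simp [hj]
    · intro hk; exact absurd (mem_range.2 (by omega)) hk
    · intro i _ hi; simp [hi]
    · intro hm; exact absurd (mem_range.2 (by omega)) hm
  rwa [e1] at h1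

/-! ## Sums over triangles -/

lemma sum_tri {E : Type*} [AddCommMonoid E] (M : ℕ) (f : ℕ → ℕ → E) :
    ∑ u ∈ range M, ∑ p ∈ antidiagonal u, f p.1 p.2
      = ∑ m ∈ range M, ∑ p ∈ range M, if m + p < M then f m p else 0 := by
  rw [← sum_product', sum_ite, sum_const_zero, add_zero, sum_sigma']
  refine sum_nbij' (fun z => z.2) (fun z => ⟨z.1 + z.2, z⟩) ?_ ?_ ?_ ?_ ?_
  · rintro ⟨u, p⟩ h
    simp only [mem_sigma, mem_range, HasAntidiagonal.mem_antidiagonal] at h
    simp only [mem_filter, mem_product, mem_range]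
    omega
  · rintro p h
    simp only [mem_filter, mem_product, mem_range] at h
    simp only [mem_sigma, mem_range, HasAntidiagonal.mem_antidiagonal]
    exact ⟨h.2, trivial⟩
  · rintro ⟨u, p⟩ h
    simp only [mem_sigma, mem_range, HasAntidiagonal.mem_antidiagonal] at h
    obtain ⟨_, rfl⟩ := h
    rfl
  · rintro p h
    rfl
  · rintro ⟨u, p⟩ h
    rfl

/-- the finite section form of the convolution -/
lemma conv_section (γ δ : ℕ → ℕ → ℂ) (x y : ℕ → ℂ) (M : ℕ) :
    ∑ u ∈ range M, ∑ v ∈ range M, conv γ δ u v * x u * y v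
      = ∑ m ∈ range M, ∑ k ∈ range M, γ m k * ∑ p ∈ range M, ∑ q ∈ range M,
          δ p q * (if m + p < M then x (m + p) else 0) * (if k + q < M then y (k + q) else 0) := by
  have h1 : ∀ u ∈ range M, ∑ v ∈ range M, conv γ δ u v * x u * y v
      = ∑ p ∈ antidiagonal u, (∑ k ∈ range M, ∑ q ∈ range M,
        if k + q < M then γ p.1 k * δ p.2 q * x (p.1 + p.2) * y (k + q) else 0) := by
    intro u _
    have h2 : ∀ p ∈ antidiagonal u, (∑ k ∈ range M, ∑ q ∈ range M,
        if k + q < M then γ p.1 k * δ p.2 q * x (p.1 + p.2) * y (k + q) else 0)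
        = ∑ v ∈ range M, ∑ q ∈ antidiagonal v, γ p.1 q.1 * δ p.2 q.2 * x u * y v := by
      intro p hp
      rw [← sum_tri M (fun k q => γ p.1 k * δ p.2 q * x (p.1 + p.2) * y (k + q))]
      refine sum_congr rfl fun v _ => sum_congr rfl fun q hq => ?_
      rw [mem_antidiagonal.1 hp, mem_antidiagonal.1 hq]
    rw [sum_congr rfl h2, sum_comm]
    refine sum_congr rfl fun v _ => ?_
    unfold conv
    rw [sum_mul, sum_mul]
    refine sum_congr rfl fun p _ => ?_
    rw [sum_mul, sum_mul]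
  rw [sum_congr rfl h1, sum_tri M (fun a b => ∑ k ∈ range M, ∑ q ∈ range M,
        if k + q < M then γ a k * δ b q * x (a + b) * y (k + q) else 0)]
  refine sum_congr rfl fun m _ => ?_
  simp only [mul_sum]
  rw [sum_comm (s := range M) (t := range M) (f := fun k p => ∑ q ∈ range M,
    γ m k * (δ p q * (if m + p < M then x (m + p) else 0) * (if k + q < M then y (k + q) else 0)))]
  refine sum_congr rfl fun p _ => ?_
  by_cases hp : m + p < M
  · simp only [hp, if_true]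
    refine sum_congr rfl fun k _ => sum_congr rfl fun q _ => ?_
    split_ifs <;> ring
  · simp [hp]

/-! ## Convolution is bounded for the injective norm -/

lemma bbound_of_injBound {γ : ℕ → ℕ → ℂ} {B : ℝ} (h : InjBound γ B) (M : ℕ) :
    H758R2.Groth.BBound (fun (i j : Fin M) => γ i j) B := by
  intro x y hx hy
  have h1 := h (fun i => if hi : i < M then x ⟨i, hi⟩ else 0)
    (fun j => if hj : j < M then y ⟨j, hj⟩ else 0)
    (fun i => by split_ifs <;> simp [hx]) (fun j => by split_ifs <;> simp [hy]) M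
  refine le_trans (le_of_eq ?_) h1
  congr 1
  rw [← Fin.sum_univ_eq_sum_range (fun m => ∑ k ∈ range M, γ m k *
    (if hi : m < M then x ⟨m, hi⟩ else 0) * (if hj : k < M then y ⟨k, hj⟩ else 0)) M]
  refine sum_congr rfl fun i _ => ?_
  rw [← Fin.sum_univ_eq_sum_range (fun k => γ i k *
    (if hi : (i : ℕ) < M then x ⟨i, hi⟩ else 0) * (if hj : k < M then y ⟨k, hj⟩ else 0)) M]
  refine sum_congr rfl fun j _ => ?_
  simp

lemma InjBound.conv_pos {γ δ : ℕ → ℕ → ℂ} {B D : ℝ} (h : InjBound γ B) (h' : InjBound δ D)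
    (hD : 0 < D) : InjBound (conv γ δ) (96 * B * (96 * D * 2)) := by
  intro x y hx hy M
  rcases Nat.eq_zero_or_pos M with rfl | hM
  · have := h.nonneg
    simp
    positivity
  have : Nonempty (Fin M) := ⟨⟨0, hM⟩⟩
  have h1 := H758R2.Groth.kron (fun (i j : Fin M) => γ i j) (fun (i j : Fin M) => δ i j)
    (bbound_of_injBound h M) (bbound_of_injBound h' M) hD
    (fun i i' => if (i : ℕ) + i' < M then x (i + i') else 0)
    (fun j j' => if (j : ℕ) + j' < M then y (j + j') else 0)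
    (fun i i' => by split_ifs <;> simp [hx]) (fun j j' => by split_ifs <;> simp [hy])
  refine le_trans (le_of_eq ?_) h1
  rw [conv_section]
  congr 1
  rw [← Fin.sum_univ_eq_sum_range (fun m => ∑ k ∈ range M, γ m k * ∑ p ∈ range M, ∑ q ∈ range M,
          δ p q * (if m + p < M then x (m + p) else 0) * (if k + q < M then y (k + q) else 0)) M]
  refine sum_congr rfl fun i _ => ?_
  rw [← Fin.sum_univ_eq_sum_range (fun k => γ i k * ∑ p ∈ range M, ∑ q ∈ range M,
          δ p q * (if (i : ℕ) + p < M then x (i + p) else 0) *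
            (if k + q < M then y (k + q) else 0)) M]
  refine sum_congr rfl fun j _ => ?_
  congr 1
  rw [← Fin.sum_univ_eq_sum_range (fun p => ∑ q ∈ range M,
          δ p q * (if (i : ℕ) + p < M then x (i + p) else 0) *
            (if (j : ℕ) + q < M then y (j + q) else 0)) M]
  refine sum_congr rfl fun i' _ => ?_
  rw [← Fin.sum_univ_eq_sum_range (fun q =>
          δ i' q * (if (i : ℕ) + i' < M then x (i + i') else 0) *
            (if (j : ℕ) + q < M then y (j + q) else 0)) M]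

/-- The convolution of matrices is bounded for the injective norm. -/
lemma InjBound.conv {γ δ : ℕ → ℕ → ℂ} {B D : ℝ} (h : InjBound γ B) (h' : InjBound δ D) :
    InjBound (conv γ δ) (18432 * B * D) := by
  intro x y hx hy M
  have hB := h.nonneg
  have hD := h'.nonneg
  refine le_of_forall_pos_le_add fun η hη => ?_
  have hpos : 0 < 18432 * B + 1 := by positivity
  have h1 := (h.conv_pos (h'.mono (le_add_of_nonneg_right (div_nonneg hη.le hpos.le) :
    D ≤ D + η / (18432 * B + 1))) (by positivity)) x y hx hy M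
  refine h1.trans ?_
  have h2 : 18432 * B * (η / (18432 * B + 1)) ≤ η := by
    rw [mul_div_assoc', div_le_iff₀ hpos]
    nlinarith
  nlinarith


/-! ## The injective tensor product is closed under convolution -/

lemma conv_sub (γ γ' δ δ' : ℕ → ℕ → ℂ) (u v : ℕ) :
    conv (fun m k => γ m k - γ' m k) δ u v + conv γ' (fun m k => δ m k - δ' m k) u v
      = conv γ δ u v - conv γ' δ' u v := by
  unfold conv
  rw [← sum_add_distrib, ← sum_sub_distrib]
  refine sum_congr rfl fun p _ => ?_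
  rw [← sum_add_distrib, ← sum_sub_distrib]
  refine sum_congr rfl fun q _ => ?_
  ring

lemma InInjective.conv {γ δ : ℕ → ℕ → ℂ} {B D : ℝ} (h : InInjective γ) (h' : InInjective δ)
    (hB : InjBound γ B) (hD : InjBound δ D) : InInjective (conv γ δ) := by
  intro ε hε
  have hB0 := hB.nonneg
  have hD0 := hD.nonneg
  set η : ℝ := min 1 (ε / (18432 * (B + D + 1))) with hη
  have hη0 : 0 < η := lt_min one_pos (by positivity)
  have hη1 : η ≤ 1 := min_le_left _ _
  have hη2 : 18432 * (B + D + 1) * η ≤ ε := by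
    have := min_le_right 1 (ε / (18432 * (B + D + 1)))
    rw [← hη, le_div_iff₀ (by positivity)] at this
    linarith
  obtain ⟨γ', ⟨M, hM⟩, hγ⟩ := h η hη0
  obtain ⟨δ', ⟨M', hM'⟩, hδ⟩ := h' η hη0
  refine ⟨LBanachAlgebra.conv γ' δ', ⟨M + M', ?_⟩, ?_⟩
  · intro u v huv
    unfold LBanachAlgebra.conv
    refine sum_eq_zero fun p hp => sum_eq_zero fun q hq => ?_
    rw [HasAntidiagonal.mem_antidiagonal] at hp hq
    by_cases h1 : M ≤ p.1 ∨ M ≤ q.1
    · rw [hM _ _ h1, zero_mul]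
    · rw [hM' p.2 q.2 (by omega), mul_zero]
  · have hγ' : InjBound γ' (B + η) :=
      (hB.add hγ.neg).congr (fun m k => by ring)
    have h1 := (hγ.conv hD).add (hγ'.conv hδ)
    refine (h1.congr (fun u v => conv_sub γ γ' δ δ' u v)).mono ?_
    have h2 : 18432 * (B + η) * η ≤ 18432 * (B + 1) * η := by gcongr
    nlinarith

lemma Represents.conv {γ δ : ℕ → ℕ → ℂ} {φ ψ : PowerSeries ℂ} (h : Represents γ φ)
    (h' : Represents δ ψ) : Represents (conv γ δ) (φ * ψ) := by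
  intro n
  rw [PowerSeries.coeff_mul]
  have h1 : ∀ p ∈ antidiagonal n, PowerSeries.coeff p.1 φ * PowerSeries.coeff p.2 ψ
      = ∑ a ∈ antidiagonal p.1, ∑ b ∈ antidiagonal p.2, γ a.1 a.2 * δ b.1 b.2 := by
    intro p _
    rw [← h p.1, ← h' p.2, sum_mul_sum]
  rw [sum_congr rfl h1]
  unfold LBanachAlgebra.conv
  simp only [← sum_product']
  rw [sum_sigma', sum_sigma']
  refine sum_nbij' (fun z => ⟨(z.2.1.1 + z.2.2.1, z.2.1.2 + z.2.2.2),
      ((z.2.1.1, z.2.2.1), (z.2.1.2, z.2.2.2))⟩)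
    (fun z => ⟨(z.2.1.1 + z.2.2.1, z.2.1.2 + z.2.2.2),
      ((z.2.1.1, z.2.2.1), (z.2.1.2, z.2.2.2))⟩) ?_ ?_ ?_ ?_ ?_
  · rintro ⟨⟨u, v⟩, ⟨⟨a, b⟩, ⟨c, d⟩⟩⟩ hz
    simp only [mem_sigma, mem_product, HasAntidiagonal.mem_antidiagonal] at hz ⊢
    obtain ⟨h0, h1, h2⟩ := hz
    refine ⟨?_, trivial, trivial⟩
    omega
  · rintro ⟨⟨u, v⟩, ⟨⟨a, b⟩, ⟨c, d⟩⟩⟩ hz
    simp only [mem_sigma, mem_product, HasAntidiagonal.mem_antidiagonal] at hz ⊢
    obtain ⟨h0, h1, h2⟩ := hz
    refine ⟨?_, trivial, trivial⟩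
    omega
  · rintro ⟨⟨u, v⟩, ⟨⟨a, b⟩, ⟨c, d⟩⟩⟩ hz
    simp only [mem_sigma, mem_product, HasAntidiagonal.mem_antidiagonal] at hz
    obtain ⟨_, rfl, rfl⟩ := hz
    rfl
  · rintro ⟨⟨u, v⟩, ⟨⟨a, b⟩, ⟨c, d⟩⟩⟩ hz
    simp only [mem_sigma, mem_product, HasAntidiagonal.mem_antidiagonal] at hz
    obtain ⟨_, rfl, rfl⟩ := hz
    rfl
  · rintro ⟨⟨u, v⟩, ⟨⟨a, b⟩, ⟨c, d⟩⟩⟩ hz
    rfl

/-! ## The norm of `𝓛` -/

lemma bddBelow_set (φ : PowerSeries ℂ) :
    BddBelow {B : ℝ | ∃ γ, InInjective γ ∧ InjBound γ B ∧ Represents γ φ} :=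
  ⟨0, by rintro B ⟨γ, _, hB, _⟩; exact hB.nonneg⟩

lemma normL_nonneg (φ : PowerSeries ℂ) : 0 ≤ normL φ := by
  apply Real.sInf_nonneg
  rintro B ⟨γ, _, hB, _⟩
  exact hB.nonneg

lemma exists_lt {φ : PowerSeries ℂ} (h : φ ∈ spaceL) {η : ℝ} (hη : 0 < η) :
    ∃ B γ, B < normL φ + η ∧ InInjective γ ∧ InjBound γ B ∧ Represents γ φ := by
  obtain ⟨γ, B, h1, h2, h3⟩ := h
  have hne : {B : ℝ | ∃ γ, InInjective γ ∧ InjBound γ B ∧ Represents γ φ}.Nonempty :=
    ⟨B, γ, h1, h2, h3⟩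
  obtain ⟨B', ⟨γ', h1', h2', h3'⟩, hlt⟩ := exists_lt_of_csInf_lt hne
    (lt_add_of_pos_right (normL φ) hη)
  exact ⟨B', γ', hlt, h1', h2', h3'⟩

lemma norm_coeff_le {φ : PowerSeries ℂ} (h : φ ∈ spaceL) (n : ℕ) :
    ‖PowerSeries.coeff n φ‖ ≤ (n + 1) * normL φ := by
  refine le_of_forall_pos_le_add fun η hη => ?_
  obtain ⟨B, γ, hlt, _, hB, hr⟩ := exists_lt h (div_pos hη (by positivity : (0:ℝ) < n + 1))
  rw [← hr n]
  calc ‖∑ p ∈ antidiagonal n, γ p.1 p.2‖ ≤ ∑ p ∈ antidiagonal n, ‖γ p.1 p.2‖ := norm_sum_le _ _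
    _ ≤ ∑ p ∈ antidiagonal n, B := sum_le_sum fun p _ => hB.entry _ _
    _ = (n + 1) * B := by
        rw [sum_const, Finset.Nat.card_antidiagonal, nsmul_eq_mul]; push_cast; ring
    _ ≤ (n + 1) * (normL φ + η / (n + 1)) := by gcongr
    _ = (n + 1) * normL φ + η := by field_simp

lemma summable_norm {φ : PowerSeries ℂ} (h : φ ∈ spaceL) {z : ℂ} (hz : ‖z‖ < 1) :
    Summable fun n => ‖PowerSeries.coeff n φ * z ^ n‖ := by
  have h1 : Summable fun n : ℕ => ((n : ℝ) + 1) * ‖z‖ ^ n := by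
    have h2 := (summable_pow_mul_geometric_of_norm_lt_one (R := ℝ) 1 (r := ‖z‖) (by simpa using hz))
    have h3 := (summable_geometric_of_lt_one (norm_nonneg z) hz)
    refine (h2.add h3).congr fun n => ?_
    ring
  refine Summable.of_nonneg_of_le (fun n => norm_nonneg _) (fun n => ?_) (h1.mul_left (normL φ))
  rw [norm_mul, norm_pow]
  calc ‖PowerSeries.coeff n φ‖ * ‖z‖ ^ n ≤ ((n + 1) * normL φ) * ‖z‖ ^ n := by
        gcongr; exact norm_coeff_le h n
    _ = normL φ * (((n : ℝ) + 1) * ‖z‖ ^ n) := by ring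

lemma hasSum_mul {φ ψ : PowerSeries ℂ} (h : φ ∈ spaceL) (h' : ψ ∈ spaceL) {z : ℂ} (hz : ‖z‖ < 1) :
    HasSum (fun n => PowerSeries.coeff n (φ * ψ) * z ^ n)
      ((∑' n, PowerSeries.coeff n φ * z ^ n) * ∑' n, PowerSeries.coeff n ψ * z ^ n) := by
  have h1 := summable_norm h hz
  have h2 := summable_norm h' hz
  have h3 := summable_norm_sum_mul_antidiagonal_of_summable_norm h1 h2
  rw [tsum_mul_tsum_eq_tsum_sum_antidiagonal_of_summable_norm h1 h2]
  have h4 : (fun n => PowerSeries.coeff n (φ * ψ) * z ^ n) = fun n => ∑ kl ∈ antidiagonal n,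
      PowerSeries.coeff kl.1 φ * z ^ kl.1 * (PowerSeries.coeff kl.2 ψ * z ^ kl.2) := by
    ext n
    rw [PowerSeries.coeff_mul, sum_mul]
    refine sum_congr rfl fun p hp => ?_
    rw [HasAntidiagonal.mem_antidiagonal] at hp
    rw [← hp, pow_add]
    ring
  rw [h4]
  exact h3.of_norm.hasSum

lemma mul_mem {φ ψ : PowerSeries ℂ} (h : φ ∈ spaceL) (h' : ψ ∈ spaceL) : φ * ψ ∈ spaceL := by
  obtain ⟨γ, B, h1, h2, h3⟩ := h
  obtain ⟨δ, D, h1', h2', h3'⟩ := h'
  exact ⟨_, _, h1.conv h1' h2 h2', h2.conv h2', h3.conv h3'⟩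

lemma normL_mul {φ ψ : PowerSeries ℂ} (h : φ ∈ spaceL) (h' : ψ ∈ spaceL) :
    normL (φ * ψ) ≤ 18432 * normL φ * normL ψ := by
  have key : ∀ η : ℝ, 0 < η → normL (φ * ψ) ≤ 18432 * (normL φ + η) * (normL ψ + η) := by
    intro η hη
    obtain ⟨B, γ, hlt, h1, h2, h3⟩ := exists_lt h hη
    obtain ⟨D, δ, hlt', h1', h2', h3'⟩ := exists_lt h' hη
    have h4 : normL (φ * ψ) ≤ 18432 * B * D :=
      csInf_le (bddBelow_set _) ⟨_, h1.conv h1' h2 h2', h2.conv h2', h3.conv h3'⟩
    have h5 := h2.nonneg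
    have h6 := h2'.nonneg
    have h7 := normL_nonneg φ
    refine h4.trans ?_
    gcongr
  have hc : Filter.Tendsto (fun η : ℝ => 18432 * (normL φ + η) * (normL ψ + η))
      (nhdsWithin 0 (Set.Ioi 0)) (nhds (18432 * (normL φ + 0) * (normL ψ + 0))) := by
    apply Filter.Tendsto.mono_left _ nhdsWithin_le_nhds
    exact (Continuous.tendsto (by fun_prop) 0)
  rw [add_zero, add_zero] at hc
  refine ge_of_tendsto hc ?_
  filter_upwards [self_mem_nhdsWithin] with η hη using key η hη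

/-- The space `𝓛` is a Banach algebra under pointwise multiplication: it is closed under products and
`‖φ ψ‖ ≤ C ‖φ‖ ‖ψ‖` for a constant `C`. -/
theorem result :
    (∀ φ ∈ spaceL, ∀ z : ℂ, ‖z‖ < 1 → Summable fun n => ‖PowerSeries.coeff n φ * z ^ n‖) ∧
    (∀ φ ∈ spaceL, ∀ ψ ∈ spaceL, ∀ z : ℂ, ‖z‖ < 1 →
      HasSum (fun n => PowerSeries.coeff n (φ * ψ) * z ^ n)
        ((∑' n, PowerSeries.coeff n φ * z ^ n) * ∑' n, PowerSeries.coeff n ψ * z ^ n)) ∧
    ∃ C : ℝ, ∀ φ ∈ spaceL, ∀ ψ ∈ spaceL, φ * ψ ∈ spaceL ∧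
      normL (φ * ψ) ≤ C * normL φ * normL ψ :=
  ⟨fun _ h _ hz => summable_norm h hz, fun _ h _ h' _ hz => hasSum_mul h h' hz,
    18432, fun _ h _ h' => ⟨mul_mem h h', normL_mul h h'⟩⟩

end Pool.Agent.Results.MP_20ef18_an.LBanachAlgebra
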